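import Mathlib
import Pool.Agent.Lib.helper23.NimReg

namespace Pool.Agent.Results.MP_02a275_nt.ArrayNotRegular

/-- `2`-regular integer sequences: the `2`-kernel generates a finitely generated module -/
def IsRegular (a : ℕ → ℤ) : Prop :=
  (Submodule.span ℤ {f : ℕ → ℤ | ∃ e r : ℕ, r < 2 ^ e ∧ f = fun n => a (2 ^ e * n + r)}).FG

/-- `2`-regular arrays: all kernel subarrays are integer combinations of finitely many arrays -/
def IsRegularArray (c : ℕ → ℕ → ℤ) : Prop :=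
  ∃ (s : ℕ) (g : Fin s → ℕ → ℕ → ℤ), ∀ e r t : ℕ, r < 2 ^ e → t < 2 ^ e →
    ∃ w : Fin s → ℤ, ∀ m n, c (2 ^ e * m + r) (2 ^ e * n + t) = ∑ i, w i * g i m n

theorem result : ∃ a b : ℕ → ℕ, IsRegular (fun n => a n) ∧ IsRegular (fun n => b n) ∧
    ¬ IsRegularArray fun i j => ((a i ^^^ b j : ℕ) : ℤ) := by
  refine ⟨Lib.H23Nim.aa, Lib.H23Nim.bb, Lib.H23Nim.aa_reg, Lib.H23Nim.bb_reg, ?_⟩
  rintro ⟨s, g, h⟩
  refine Lib.H23Nim.no_fg (Submodule.span ℤ (Set.range fun i n => g i n n))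
    (Submodule.fg_span (Set.finite_range _)) fun k => ?_
  obtain ⟨w, hw⟩ := h k 0 0 (by positivity) (by positivity)
  rw [Submodule.mem_span_range_iff_exists_fun]
  exact ⟨w, funext fun n => by simpa using (hw n n).symm⟩

end Pool.Agent.Results.MP_02a275_nt.ArrayNotRegular
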