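import Mathlib
import Pool.Agent.Lib.helper23.NimReg

namespace Pool.Agent.Results.MP_02a275_nt.SeqNotRegular

/-- `2`-regular integer sequences: the `2`-kernel generates a finitely generated module -/
def IsRegular (a : ℕ → ℤ) : Prop :=
  (Submodule.span ℤ {f : ℕ → ℤ | ∃ e r : ℕ, r < 2 ^ e ∧ f = fun n => a (2 ^ e * n + r)}).FG

theorem result : ∃ a b : ℕ → ℕ, IsRegular (fun n => a n) ∧ IsRegular (fun n => b n) ∧
    ¬ IsRegular fun n => ((a n ^^^ b n : ℕ) : ℤ) :=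
  ⟨Lib.H23Nim.aa, Lib.H23Nim.bb, Lib.H23Nim.aa_reg, Lib.H23Nim.bb_reg, fun h =>
    Lib.H23Nim.no_fg _ h fun k => Submodule.subset_span ⟨k, 0, by positivity, rfl⟩⟩

end Pool.Agent.Results.MP_02a275_nt.SeqNotRegular
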